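import Mathlib
import Pool.Agent.H27.Irreg

namespace Pool.Agent.Results.MP_60e8bf_an.Always

open Pool.Agent.H27.Irreg

theorem both (𝕜 : Type) [RCLike 𝕜] (X : Type) [NormedAddCommGroup X] [NormedSpace 𝕜 X]
    [CompleteSpace X] [TopologicalSpace.SeparableSpace X] [Nontrivial X] (T : X →L[𝕜] X) :
    (∀ x, FreqHC T x → IrregVisit T x) ∧
    ((∃ x, FreqHC T x) → ∃ x, FreqHC T x ∧ IrregVisit T x) := by
  haveI : Infinite X := Module.Free.infinite 𝕜 X
  have h : ∀ x, FreqHC T x → IrregVisit T x := fun x hx =>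
    irreg T T.continuous x (inj_of_freq T x hx)
  exact ⟨h, fun ⟨x, hx⟩ => ⟨x, hx, h x hx⟩⟩

theorem result (𝕜 : Type) [RCLike 𝕜] (X : Type) [NormedAddCommGroup X] [NormedSpace 𝕜 X]
    [CompleteSpace X] [TopologicalSpace.SeparableSpace X] [Nontrivial X] (T : X →L[𝕜] X) :
    ∀ x, FreqHC T x → IrregVisit T x := (both 𝕜 X T).1

end Pool.Agent.Results.MP_60e8bf_an.Always
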